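import Pool.Agent.Helper55.OB.SoPq

/-!
# Lattices in `SO(2, n)`, `n ≥ 3`, against lattices in all other simple groups

`LH Γ` is the group von Neumann algebra `L(Γ)` of a discrete group `Γ`, and `IsoL Γ Λ` says that `L(Γ)` and `L(Λ)` are `*`-isomorphic.

Let `L` be a simple real Lie algebra with a Cartan involution `θ`, and `b` a basis of `L` which is orthonormal for the inner product `-κ(x, θ y)`, `κ` the
Killing form (`CartanBasis θ b`; they exist for every simple `L` of finite dimension). `rankL θ` is the real rank of `L`. `autG b` is the group of the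
automorphisms of `L` (as matrices in the basis `b`), and `autC b` its identity component; the connected simple real Lie groups with trivial centre are the
groups `autC b`, up to isomorphism. `LieAlgebra.Orthogonal.so' (Fin 2) (Fin n) ℝ` is the Lie algebra `so(2, n)` of Mathlib.

Let `L` be noncompact and `L'` isomorphic to `so(2, n)`, `n ≥ 3`. If a lattice of `autC b` and a lattice of `autC b'` have isomorphic von Neumann algebras,
then `L` and `L'` are isomorphic. So the question has a positive answer whenever one of the two groups is locally isomorphic to `SO(2, n)`, `n ≥ 3`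
(these include `Sp(4, ℝ)`, `SU(2, 2)` and `SO*(8)`).
-/

set_option autoImplicit false

open Pool.Agent.Helper66.RKS Pool.Agent.Helper96.SA Pool.Agent.Helper96.TO Pool.Agent.Helper96.HN
open Pool.Agent.Helper35.TZ (autC)

namespace Pool.Agent.Results.MP_0f6f3f_an.SOTwoN

theorem result (L L' : Type) [LieRing L] [LieAlgebra ℝ L] [LieAlgebra.IsSimple ℝ L] [LieRing L'] [LieAlgebra ℝ L'] [LieAlgebra.IsSimple ℝ L']
    (N N' : ℕ) (b : Module.Basis (Fin N) ℝ L) (b' : Module.Basis (Fin N') ℝ L') (θ : L ≃ₗ⁅ℝ⁆ L) (θ' : L' ≃ₗ⁅ℝ⁆ L')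
    (hb : CartanBasis θ b) (hb' : CartanBasis θ' b') (hr : 1 ≤ rankL θ)
    (n : ℕ) (hn : 3 ≤ n) (hL' : Nonempty (L' ≃ₗ⁅ℝ⁆ LieAlgebra.Orthogonal.so' (Fin 2) (Fin n) ℝ))
    (Γ : Subgroup (autC b)) (Λ : Subgroup (autC b'))
    (hΓ : Pool.Agent.Helper96.FR.Lattice Γ) (hΛ : Pool.Agent.Helper96.FR.Lattice Λ) (h : IsoL Γ Λ) :
    Nonempty (L ≃ₗ⁅ℝ⁆ L') := by
  obtain ⟨f⟩ := hL'
  obtain ⟨A, hA⟩ := Pool.Agent.Helper66.OB.exists_flat hb
  exact Pool.Agent.Helper55.OB.final' hb hA (by rw [Pool.Agent.Helper66.OB.finrank_flat hb hA]; exact hr) hb' hn f hΓ hΛ h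

end Pool.Agent.Results.MP_0f6f3f_an.SOTwoN
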