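import Pool.Agent.Helper66.QJ.Rogers

set_option autoImplicit false

/-!
# Quadratic Siegel disks whose boundary contains the critical point

If the critical point `0` of `f z = z ^ 2 + c` is in the boundary of a Siegel disk `S` of `f` and the boundary of `S` is
decomposable, then the Julia set of `f` is decomposable.
-/

open Set Metric

namespace Pool.Agent.Helper66.Old.SiegelBoundary

/-- the points with bounded orbit under `z ^ 2 + c` -/
def Filled (c : ℂ) : Set ℂ :=
  {z : ℂ | Bornology.IsBounded (Set.range (fun n : ℕ => (fun w : ℂ => w ^ 2 + c)^[n] z))}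

/-- the Julia set of `z ^ 2 + c` -/
def Julia (c : ℂ) : Set ℂ := frontier (Filled c)

/-- `J` is the union of two proper subcontinua -/
def Decomposable (J : Set ℂ) : Prop :=
  ∃ A B : Set ℂ, A ⊆ J ∧ B ⊆ J ∧ A ≠ J ∧ B ≠ J ∧
    IsCompact A ∧ IsConnected A ∧ IsCompact B ∧ IsConnected B ∧ A ∪ B = J

/-- `S` is a component of the interior of the filled Julia set (a bounded Fatou component) on which `z ^ 2 + c` is
conformally conjugate to the rotation by `2 π α` of the unit disk -/
def SiegelDisk (c : ℂ) (α : ℝ) (S : Set ℂ) : Prop :=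
  (∃ a ∈ interior (Filled c), S = connectedComponentIn (interior (Filled c)) a) ∧
    ∃ φ : ℂ → ℂ, DifferentiableOn ℂ φ (ball 0 1) ∧ BijOn φ (ball 0 1) S ∧
      ∀ w ∈ ball (0 : ℂ) 1, φ w ^ 2 + c = φ (Complex.exp (2 * Real.pi * α * Complex.I) * w)

theorem result (c : ℂ) (α : ℝ) (S : Set ℂ) (hα : Irrational α) (hS : SiegelDisk c α S) (h0 : (0 : ℂ) ∈ frontier S)
    (hdec : Decomposable (frontier S)) : Decomposable (Julia c) := by
  obtain ⟨⟨a, -, rfl⟩, φ, hd, hb, hsemi⟩ := hS
  have himg : φ '' ball 0 1 = Pool.Agent.Helper66.QJ.Comp c a := hb.image_eq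
  have hfr : frontier (φ '' ball 0 1) = frontier (Pool.Agent.Helper66.QJ.Comp c a) := by rw [himg]
  refine Pool.Agent.Helper66.QJ.dec_of_boundary (c := c) (φ := φ) (α := α) hd hb.injOn hα hsemi ?_ ?_ ?_ ?_
  · rw [himg]
    exact Pool.Agent.Helper66.QJ.Comp_sub c a
  · rw [hfr]
    exact Pool.Agent.Helper66.QJ.frontier_Comp_sub c a
  · rw [hfr]
    exact h0
  · rw [hfr]
    exact hdec

end Pool.Agent.Helper66.Old.SiegelBoundary
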